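import Pool.Agent.Run7.h382.S.CFa

/-!
Project RP (helper285), piece R1, first part: the lower bound of the sieve count for pairs.
-/

set_option autoImplicit false

namespace Run7.h837.R

open Finset
open Run7.h285.S
open Run7.h382.S
open Pool.Agent.W41 (JJ JJ_small)
open Pool.Agent.H373R2.T7 (pz Vz lamz mem_pz Vz_ge Vz_pos Vz_le_one)
open Pool.Agent.TH892.SW (fl_set)

lemma tele (N : ℕ) (hN : 1 ≤ N) : ∏ n ∈ Icc 2 N, (1 - 1 / (n : ℝ) ^ 2) = ((N : ℝ) + 1) / (2 * N) := by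
  induction N, hN using Nat.le_induction with
  | base => norm_num
  | succ n hn ih =>
    rw [Finset.prod_Icc_succ_top (by omega), ih]
    have h1 : (1 : ℝ) ≤ n := by exact_mod_cast hn
    push_cast
    field_simp
    ring

lemma fac01 (n : ℕ) (hn : 2 ≤ n) : 0 ≤ 1 - 1 / (n : ℝ) ^ 2 ∧ 1 - 1 / (n : ℝ) ^ 2 ≤ 1 := by
  have h1 : (2 : ℝ) ≤ n := by exact_mod_cast hn
  have h2 : (1 : ℝ) ≤ (n : ℝ) ^ 2 := by nlinarith
  constructor
  · rw [sub_nonneg, div_le_one (by positivity)]; exact h2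
  · have : 0 ≤ 1 / (n : ℝ) ^ 2 := by positivity
    linarith

/-- `∏_{3 ≤ p ≤ z} (1 - 1 / (p - 1)²) ≥ 1 / 2` -/
lemma twin_low (z : ℕ) (hz : 2 ≤ z) :
    (1 / 2 : ℝ) ≤ ∏ p ∈ (pz z).erase 2, (1 - 1 / ((p - 1 : ℕ) : ℝ) ^ 2) := by
  classical
  set S := (pz z).erase 2 with hS
  have hSm : ∀ p ∈ S, 3 ≤ p ∧ p ≤ z := by
    intro p hp
    rw [hS, mem_erase, mem_pz] at hp
    have := hp.2.2.two_le
    omega
  have hinj : Set.InjOn (fun p : ℕ => p - 1) (S : Set ℕ) := by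
    intro a ha b hb hab
    have h1 := hSm a ha
    have h2 := hSm b hb
    simp only at hab
    omega
  have h1 : ∏ p ∈ S, (1 - 1 / ((p - 1 : ℕ) : ℝ) ^ 2) = ∏ n ∈ S.image (fun p : ℕ => p - 1), (1 - 1 / (n : ℝ) ^ 2) := by
    rw [prod_image hinj]
  have hsub : S.image (fun p : ℕ => p - 1) ⊆ Icc 2 z := by
    intro n hn
    rw [mem_image] at hn
    obtain ⟨p, hp, rfl⟩ := hn
    have := hSm p hp
    rw [mem_Icc]
    omega
  rw [h1]
  have h2 := tele z (by omega)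
  rw [← prod_sdiff hsub] at h2
  have h3 : ∏ n ∈ Icc 2 z \ S.image (fun p : ℕ => p - 1), (1 - 1 / (n : ℝ) ^ 2) ≤ 1 := by
    apply prod_le_one
    · intro n hn
      rw [mem_sdiff, mem_Icc] at hn
      exact (fac01 n hn.1.1).1
    · intro n hn
      rw [mem_sdiff, mem_Icc] at hn
      exact (fac01 n hn.1.1).2
  have h4 : 0 ≤ ∏ n ∈ S.image (fun p : ℕ => p - 1), (1 - 1 / (n : ℝ) ^ 2) := by
    apply prod_nonneg
    intro n hn
    have := hsub hn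
    rw [mem_Icc] at this
    exact (fac01 n this.1).1
  have h5 : (1 / 2 : ℝ) ≤ ((z : ℝ) + 1) / (2 * z) := by
    have : (2 : ℝ) ≤ z := by exact_mod_cast hz
    rw [div_le_div_iff₀ (by norm_num) (by linarith)]
    linarith
  rw [← h2] at h5
  nlinarith

/-- the singular series of a pair with even difference -/
lemma pair_low (D : ℤ) (z : ℕ) (hz : 2 ≤ z) (hD : (2 : ℤ) ∣ D) : Vz z ^ 2 ≤ Pi0 D z z z := by
  classical
  have h2m : 2 ∈ pz z := mem_pz.2 ⟨hz, Nat.prime_two⟩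
  unfold Pi0 Vz
  rw [← prod_pow, ← mul_prod_erase _ _ h2m, ← mul_prod_erase (pz z) (fun p => (1 - (rh D z z p : ℝ) / p)) h2m]
  have e2 : rh D z z 2 = 1 := by
    unfold rh
    rw [if_pos ⟨hz, hz⟩, if_pos (by exact_mod_cast hD)]
  have h3 : ∏ p ∈ (pz z).erase 2, (1 - 1 / (p : ℝ)) ^ 2 * (1 - 1 / ((p - 1 : ℕ) : ℝ) ^ 2) ≤
      ∏ p ∈ (pz z).erase 2, (1 - (rh D z z p : ℝ) / p) := by
    apply prod_le_prod
    · intro p hp
      rw [mem_erase, mem_pz] at hp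
      have := hp.2.2.two_le
      exact mul_nonneg (sq_nonneg _) (fac01 (p - 1) (by omega)).1
    · intro p hp
      rw [mem_erase, mem_pz] at hp
      have h4 := hp.2.2.two_le
      have h5 : 3 ≤ p := by omega
      have h6 : (rh D z z p : ℝ) ≤ 2 := by exact_mod_cast rh_le D z z p
      have h7 : (3 : ℝ) ≤ p := by exact_mod_cast h5
      have h8 : (1 - 1 / (p : ℝ)) ^ 2 * (1 - 1 / ((p - 1 : ℕ) : ℝ) ^ 2) = 1 - 2 / p := by
        rw [Nat.cast_sub (by omega)]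
        push_cast
        have h9 : (p : ℝ) - 1 ≠ 0 := by linarith
        field_simp
        ring
      rw [h8]
      have h10 : (rh D z z p : ℝ) / p ≤ 2 / p := by
        apply div_le_div_of_nonneg_right h6 (by linarith)
      linarith
  rw [prod_mul_distrib] at h3
  have h11 := twin_low z hz
  have h12 : 0 ≤ ∏ p ∈ (pz z).erase 2, (1 - 1 / (p : ℝ)) ^ 2 := prod_nonneg fun p _ => sq_nonneg _
  rw [e2]
  push_cast
  set a := ∏ p ∈ (pz z).erase 2, (1 - 1 / (p : ℝ)) ^ 2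
  set b := ∏ p ∈ (pz z).erase 2, (1 - 1 / ((p - 1 : ℕ) : ℝ) ^ 2)
  have h13 : a * (1 / 2) ≤ a * b := mul_le_mul_of_nonneg_left h11 h12
  norm_num
  linarith

theorem nn_low : ∃ C0 K0 : ℕ, 1 ≤ C0 ∧ 1 ≤ K0 ∧ ∀ z : ℕ, 2 ≤ z → ∀ (X : ℕ) (A B : ℤ),
    (1 / 2 : ℝ) * ((2 * X + 1) * Pi0 (A - B) z z z) -
      ((JJ z : ℝ) + 2) * ((z : ℝ) ^ (2 * (C0 * C0)) * (K0 * (z : ℝ) ^ (2 * (C0 * C0)))) ≤ (NN A B X z z : ℝ) := by
  classical
  obtain ⟨C0, K0, hC0, hK0, hfl⟩ := fl_set 2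
  refine ⟨C0, K0, hC0, hK0, fun z hz X A B => ?_⟩
  have h1 := hfl C0 le_rfl z hz (2 * X + 1) (pz z) (fun p r => (p ≤ z ∧ (p : ℤ) ∣ (A - X - 1) + r) ∨ (p ≤ z ∧ (p : ℤ) ∣ (B - X - 1) + r))
    (by
      intro p hp
      rw [mem_pz] at hp
      refine ⟨hp.2, hp.1, ?_⟩
      have h2 := rh_card (A - X - 1) (B - X - 1) z z p hp.2
      have h3 := rh_le (A - X - 1 - (B - X - 1)) z z p
      rw [← h2] at h3
      convert h3)
  have hVe : ∏ p ∈ pz z, (1 - ((((range p).filter (fun r : ℕ => (p ≤ z ∧ (p : ℤ) ∣ (A - X - 1) + r) ∨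
      (p ≤ z ∧ (p : ℤ) ∣ (B - X - 1) + r))).card : ℕ) : ℝ) / p) = Pi0 (A - B) z z z := by
    unfold Pi0
    apply prod_congr rfl
    intro p hp
    rw [rh_card _ _ z z p (mem_pz.1 hp).2, show A - X - 1 - (B - X - 1) = A - B by ring]
  have hmod : ∀ (A : ℤ) (n p : ℕ), ((p : ℤ) ∣ A + ((n % p : ℕ) : ℤ)) ↔ ((p : ℤ) ∣ A + (n : ℤ)) := by
    intro A n p
    have h3 : A + ((n % p : ℕ) : ℤ) ≡ A + (n : ℤ) [ZMOD p] := by
      apply Int.ModEq.add_left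
      rw [Int.natCast_mod]
      exact Int.mod_modEq _ _
    rw [Int.dvd_iff_emod_eq_zero, Int.dvd_iff_emod_eq_zero, h3]
  have hcard : NN A B X z z = #((Icc 1 (2 * X + 1)).filter (fun n : ℕ => ∀ p ∈ pz z,
      ¬ ((p ≤ z ∧ (p : ℤ) ∣ (A - X - 1) + ((n % p : ℕ) : ℤ)) ∨ (p ≤ z ∧ (p : ℤ) ∣ (B - X - 1) + ((n % p : ℕ) : ℤ))))) := by
    unfold NN
    refine card_nbij' (fun c : ℤ => (c + X + 1).toNat) (fun t : ℕ => (t : ℤ) - X - 1) ?_ ?_ ?_ ?_
    · intro c hc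
      rw [mem_coe, mem_filter, mem_Icc] at hc
      obtain ⟨⟨c1, c2⟩, c3, c4⟩ := hc
      beta_reduce
      rw [mem_coe, mem_filter, mem_Icc]
      refine ⟨by omega, fun p hp => ?_⟩
      rw [hmod, hmod]
      have e : (((c + X + 1).toNat : ℕ) : ℤ) = c + X + 1 := by omega
      rw [e, show A - X - 1 + (c + X + 1) = A + c by ring, show B - X - 1 + (c + X + 1) = B + c by ring]
      rintro (⟨h, h'⟩ | ⟨h, h'⟩)
      · exact c3 p (mem_pz.2 ⟨h, (mem_pz.1 hp).2⟩) h'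
      · exact c4 p (mem_pz.2 ⟨h, (mem_pz.1 hp).2⟩) h'
    · intro t ht
      rw [mem_coe, mem_filter, mem_Icc] at ht
      obtain ⟨⟨t1, t2⟩, t3⟩ := ht
      beta_reduce
      rw [mem_coe, mem_filter, mem_Icc]
      refine ⟨by omega, ?_, ?_⟩
      · intro p hp h'
        have hp' := mem_pz.1 hp
        have h4 := t3 p (mem_pz.2 ⟨hp'.1, hp'.2⟩)
        rw [hmod, hmod] at h4
        apply h4
        left
        refine ⟨hp'.1, ?_⟩
        rwa [show A - X - 1 + (t : ℤ) = A + ((t : ℤ) - X - 1) by ring]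
      · intro p hp h'
        have hp' := mem_pz.1 hp
        have h4 := t3 p (mem_pz.2 ⟨hp'.1, hp'.2⟩)
        rw [hmod, hmod] at h4
        apply h4
        right
        refine ⟨hp'.1, ?_⟩
        rwa [show B - X - 1 + (t : ℤ) = B + ((t : ℤ) - X - 1) by ring]
    · intro c hc
      rw [mem_coe, mem_filter, mem_Icc] at hc
      show (((c + X + 1).toNat : ℕ) : ℤ) - X - 1 = c
      omega
    · intro t ht
      rw [mem_coe, mem_filter, mem_Icc] at ht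
      show ((t : ℤ) - X - 1 + X + 1).toNat = t
      omega
  have h2 : |(NN A B X z z : ℝ) - (2 * X + 1) * Pi0 (A - B) z z z| ≤
      (1 / 2 : ℝ) ^ C0 * ((2 * X + 1) * Pi0 (A - B) z z z) +
        ((JJ z : ℝ) + 2) * ((z : ℝ) ^ (2 * (C0 * C0)) * (K0 * (z : ℝ) ^ (2 * (C0 * C0)))) := by
    rw [← hVe, hcard]
    push_cast at h1 ⊢
    convert h1 using 6 <;> congr!
  have h3 := (abs_le.1 h2).1
  have h4 : (1 / 2 : ℝ) ^ C0 ≤ 1 / 2 := by
    calc (1 / 2 : ℝ) ^ C0 ≤ (1 / 2 : ℝ) ^ 1 := pow_le_pow_of_le_one (by norm_num) (by norm_num) hC0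
      _ = 1 / 2 := pow_one _
  have h5 : 0 ≤ (2 * (X : ℝ) + 1) * Pi0 (A - B) z z z := mul_nonneg (by positivity) (Pi0_mem (A - B) z z z).1
  have h6 := mul_le_mul_of_nonneg_right h4 h5
  linarith

end Run7.h837.R
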