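import Pool.Agent.Run7.h285.R.Stm
import Pool.Agent.Run7.h837.R.A
import Pool.Agent.Run7.h270.V.GVO

/-!
Project RP (helper285), piece R1: for almost all `m` the number of the constants with two prime values.
-/

set_option autoImplicit false

namespace Run7.h837.R

open Finset Filter Polynomial
open Run7.h285.S (Bx uu vv ll gg)
open Run7.h285.G (Gd)
open Run7.h285.V (mc)
open Run7.h285.R
open Run7.h382.S (NN Pi0 mix Pi0_mem)
open Run7.h277.S (uu_gg)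
open Run7.h270.V (mc_symm mc_scale)
open Pool.Agent.W41 (JJ JJ_small)
open Pool.Agent.H373R2.T7 (pz Vz lamz mem_pz Vz_ge Vz_pos Vz_le_one)
open Pool.Agent.TH892.SW (ff wt)
open Pool.Agent.H442R2.EHI (evt_log_pow evt_log_ge)
open Pool.Agent.TH892.OW (S_facts)

lemma ll_nonneg (z : ℕ) (y : ℤ) : 0 ≤ ll z y := by
  unfold ll lamz
  split_ifs
  · exact inv_nonneg.2 (Vz_pos z).le
  · exact le_rfl

lemma ll_le (z : ℕ) (y : ℤ) : ll z y ≤ (Vz z)⁻¹ := by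
  unfold ll lamz
  split_ifs
  · exact le_rfl
  · exact inv_nonneg.2 (Vz_pos z).le

lemma wt_low {X : ℕ} {y : ℤ} (hL : 1 ≤ Real.log X) (h2 : 2 ≤ y.natAbs) (hy : (y.natAbs : ℝ) ≤ (X : ℝ) ^ 2) :
    1 / (2 * Real.log X) ≤ wt y.natAbs := by
  unfold wt
  have h3 : (2 : ℝ) ≤ y.natAbs := by exact_mod_cast h2
  have h4 : 0 < Real.log (y.natAbs : ℝ) := Real.log_pos (by linarith)
  apply one_div_le_one_div_of_le h4
  have h5 := Real.log_le_log (by linarith) hy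
  rw [Real.log_pow] at h5
  push_cast at h5
  linarith

lemma wt_nn (v : ℕ) : 0 ≤ wt v := Pool.Agent.TH892.SW.wt_nonneg v

lemma vv_low {X z : ℕ} {y : ℤ} (hL : 1 ≤ Real.log X) (h2 : 2 ≤ y.natAbs) (hy : (y.natAbs : ℝ) ≤ (X : ℝ) ^ 2) :
    ll z y * (1 / (2 * Real.log X)) ≤ vv z y := by
  unfold vv
  exact mul_le_mul_of_nonneg_left (wt_low hL h2 hy) (ll_nonneg z y)

lemma vv_nn (z : ℕ) (y : ℤ) : 0 ≤ vv z y := by
  unfold vv
  exact mul_nonneg (ll_nonneg z y) (wt_nn _)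

lemma bad_card (A B : ℤ) (X : ℕ) :
    #((Icc (-(X : ℤ)) X).filter fun c => (A + c).natAbs ≤ 1 ∨ (B + c).natAbs ≤ 1) ≤ 6 := by
  have h1 : (Icc (-(X : ℤ)) X).filter (fun c => (A + c).natAbs ≤ 1 ∨ (B + c).natAbs ≤ 1) ⊆
      Icc (-A - 1) (-A + 1) ∪ Icc (-B - 1) (-B + 1) := by
    intro c hc
    rw [mem_filter] at hc
    rw [mem_union, mem_Icc, mem_Icc]
    rcases hc.2 with h | h
    · left; omega
    · right; omega
  refine (card_le_card h1).trans ((card_union_le _ _).trans ?_)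
  rw [Int.card_Icc, Int.card_Icc]
  omega

lemma mcvv (g : ℤ[X]) {X z n n' : ℕ} (hL : 1 ≤ Real.log X)
    (hn : ∀ c ∈ Icc (-(X : ℤ)) X, ((g.eval (n : ℤ) + c).natAbs : ℝ) ≤ (X : ℝ) ^ 2)
    (hn' : ∀ c ∈ Icc (-(X : ℤ)) X, ((g.eval (n' : ℤ) + c).natAbs : ℝ) ≤ (X : ℝ) ^ 2) :
    1 / (4 * Real.log X ^ 2) * ((Vz z)⁻¹ * (Vz z)⁻¹ * NN (g.eval (n : ℤ)) (g.eval (n' : ℤ)) X z z -
      6 * ((Vz z)⁻¹ * (Vz z)⁻¹)) ≤ mc g (vv z) (vv z) X n n' := by
  classical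
  set A := g.eval (n : ℤ) with hA
  set B := g.eval (n' : ℤ) with hB
  set L := Real.log X with hLd
  set V := (Vz z)⁻¹ with hV
  have hV0 : 0 ≤ V := inv_nonneg.2 (Vz_pos z).le
  have hpt : ∀ c ∈ Icc (-(X : ℤ)) X, 1 / (4 * L ^ 2) * (ll z (A + c) * ll z (B + c) -
      (if (A + c).natAbs ≤ 1 ∨ (B + c).natAbs ≤ 1 then 1 else 0) * (V * V)) ≤ vv z (A + c) * vv z (B + c) := by
    intro c hc
    split_ifs with h
    · have h1 : ll z (A + c) * ll z (B + c) ≤ V * V := mul_le_mul (ll_le _ _) (ll_le _ _) (ll_nonneg _ _) hV0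
      have h2 : 0 ≤ vv z (A + c) * vv z (B + c) := mul_nonneg (vv_nn _ _) (vv_nn _ _)
      have h3 : 0 ≤ 1 / (4 * L ^ 2) := by positivity
      refine le_trans ?_ h2
      apply mul_nonpos_of_nonneg_of_nonpos h3
      linarith
    · rw [not_or, not_le, not_le] at h
      have h1 := vv_low (z := z) hL (show 2 ≤ (A + c).natAbs by omega) (hn c hc)
      have h2 := vv_low (z := z) hL (show 2 ≤ (B + c).natAbs by omega) (hn' c hc)
      rw [← hLd] at h1 h2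
      have h3 : 0 ≤ 1 / (2 * L) := by positivity
      have h4 := mul_le_mul h1 h2 (mul_nonneg (ll_nonneg _ _) h3) (vv_nn _ _)
      refine le_trans (le_of_eq ?_) h4
      have hL0 : L ≠ 0 := by linarith
      field_simp
      ring
  have hsum := sum_le_sum hpt
  rw [← mul_sum, sum_sub_distrib, mix, ← sum_mul] at hsum
  have hb : (∑ c ∈ Icc (-(X : ℤ)) X, (if (A + c).natAbs ≤ 1 ∨ (B + c).natAbs ≤ 1 then (1 : ℝ) else 0)) ≤ 6 := by
    have h1 := bad_card A B X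
    rw [card_filter] at h1
    have h2 : ((∑ c ∈ Icc (-(X : ℤ)) X, (if (A + c).natAbs ≤ 1 ∨ (B + c).natAbs ≤ 1 then (1 : ℕ) else 0) : ℕ) : ℝ) ≤ 6 := by
      exact_mod_cast h1
    push_cast at h2
    exact h2
  unfold mc
  refine le_trans ?_ hsum
  apply mul_le_mul_of_nonneg_left _ (by positivity)
  have h5 := mul_le_mul_of_nonneg_right hb (mul_nonneg hV0 hV0)
  linarith

lemma c2_eq (g : ℤ[X]) (X n n' : ℕ) : (c2 g X n n' : ℝ) = mc g uu uu X n n' := by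
  unfold c2 mc uu
  rw [card_filter]
  push_cast
  refine sum_congr rfl fun c _ => ?_
  by_cases h1 : (g.eval (n : ℤ) + c).natAbs.Prime
  · by_cases h2 : (g.eval (n' : ℤ) + c).natAbs.Prime
    · rw [if_pos ⟨h1, h2⟩, if_pos h1, if_pos h2]; norm_num
    · rw [if_neg (fun h => h2 h.2), if_neg h2, mul_zero]
  · rw [if_neg (fun h => h1 h.1), if_neg h1, zero_mul]

lemma c2_split (g : ℤ[X]) (z X n n' : ℕ) : mc g uu uu X n n' =
    mc g (vv z) (vv z) X n n' + mc g uu (gg z) X n n' + mc g (gg z) (vv z) X n n' := by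
  unfold mc
  rw [← sum_add_distrib, ← sum_add_distrib]
  refine sum_congr rfl fun c _ => ?_
  rw [← uu_gg, ← uu_gg]
  ring

lemma eval_le (g : ℤ[X]) : ∃ G : ℝ, 0 ≤ G ∧ ∀ t : ℕ, ((g.eval (t : ℤ)).natAbs : ℝ) ≤ G * ((t : ℝ) + 1) ^ g.natDegree := by
  refine ⟨∑ i ∈ range (g.natDegree + 1), |((g.coeff i : ℤ) : ℝ)|, sum_nonneg fun _ _ => abs_nonneg _, fun t => ?_⟩
  have h1 : ((g.eval (t : ℤ)).natAbs : ℝ) = |((g.eval (t : ℤ) : ℤ) : ℝ)| := by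
    rw [Nat.cast_natAbs, Int.cast_abs]
  rw [h1, eval_eq_sum_range]
  push_cast
  rw [sum_mul]
  refine (abs_sum_le_sum_abs _ _).trans (sum_le_sum fun i hi => ?_)
  rw [mem_range] at hi
  rw [abs_mul, abs_pow, Nat.abs_cast]
  apply mul_le_mul_of_nonneg_left _ (abs_nonneg _)
  have h2 : (t : ℝ) ^ i ≤ ((t : ℝ) + 1) ^ i := pow_le_pow_left₀ (Nat.cast_nonneg _) (by linarith) _
  exact h2.trans (pow_le_pow_right₀ (by linarith [Nat.cast_nonneg (α := ℝ) t]) (by omega))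

/-- the values are at most `X²` -/
lemma val_ev (g : ℤ[X]) (C D : ℕ) : ∀ᶠ X : ℕ in atTop, ∀ m₀ M : ℕ, ((m₀ : ℝ) + M) ^ g.natDegree ≤ X * Real.log X ^ C →
    ∀ t : ℕ, (t : ℝ) ≤ m₀ + M + Real.log X ^ D → ∀ c ∈ Icc (-(X : ℤ)) X,
    ((g.eval (t : ℤ) + c).natAbs : ℝ) ≤ (X : ℝ) ^ 2 := by
  obtain ⟨G, hG0, hG⟩ := eval_le g
  set d := g.natDegree with hd
  filter_upwards [evt_log_ge (G * 2 ^ d + 10000), evt_log_pow (C + (D + 1) * d + 2) (1 / 2) (by norm_num)] with X h1 h2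
  intro m₀ M hm t ht c hc
  have hL1 : 10000 ≤ Real.log X := by
    have : 0 ≤ G * 2 ^ d := by positivity
    linarith
  obtain ⟨hX1, -, -, -, -, hX100, hXs⟩ := S_facts X hL1
  have hX0 : (1 : ℝ) ≤ X := by exact_mod_cast hX1
  set L := Real.log X with hL
  have hLone : 1 ≤ L := by linarith
  have hLG : G * 2 ^ d ≤ L := by linarith
  have hLD : L ^ D + 1 ≤ L ^ (D + 1) := by
    have h3 : 1 ≤ L ^ D := one_le_pow₀ hLone
    rw [pow_succ]
    nlinarith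
  have h4 : ((t : ℝ) + 1) ^ d ≤ 2 ^ d * (X * L ^ C + L ^ ((D + 1) * d)) := by
    have h5 : (t : ℝ) + 1 ≤ ((m₀ : ℝ) + M) + L ^ (D + 1) := by linarith
    have h6 : ((t : ℝ) + 1) ^ d ≤ (((m₀ : ℝ) + M) + L ^ (D + 1)) ^ d := pow_le_pow_left₀ (by positivity) h5 _
    have h7 := add_pow_le (show (0 : ℝ) ≤ (m₀ : ℝ) + M by positivity) (show (0 : ℝ) ≤ L ^ (D + 1) by positivity) d
    have h8 : (2 : ℝ) ^ (d - 1) ≤ 2 ^ d := pow_le_pow_right₀ (by norm_num) (by omega)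
    have h9 : (0 : ℝ) ≤ ((m₀ : ℝ) + M) ^ d + (L ^ (D + 1)) ^ d := by positivity
    have h10 := mul_le_mul_of_nonneg_right h8 h9
    have h11 : ((m₀ : ℝ) + M) ^ d + (L ^ (D + 1)) ^ d ≤ X * L ^ C + L ^ ((D + 1) * d) := by
      rw [← pow_mul]; linarith
    have h12 := mul_le_mul_of_nonneg_left h11 (show (0 : ℝ) ≤ 2 ^ d by positivity)
    linarith
  have h13 : (X : ℝ) * L ^ C + L ^ ((D + 1) * d) ≤ X * L ^ (C + (D + 1) * d + 1) := by
    have a1 : L ^ C ≤ L ^ (C + (D + 1) * d) := pow_le_pow_right₀ hLone (by omega)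
    have a2 : L ^ ((D + 1) * d) ≤ L ^ (C + (D + 1) * d) := pow_le_pow_right₀ hLone (by omega)
    have a3 : 0 ≤ L ^ (C + (D + 1) * d) := by positivity
    have a4 : L ^ (C + (D + 1) * d + 1) = L ^ (C + (D + 1) * d) * L := pow_succ _ _
    rw [a4]
    have a5 : (X : ℝ) * L ^ C ≤ X * L ^ (C + (D + 1) * d) := mul_le_mul_of_nonneg_left a1 (by linarith)
    have a6 : L ^ (C + (D + 1) * d) ≤ X * L ^ (C + (D + 1) * d) := by nlinarith
    have a7 : 2 * (X * L ^ (C + (D + 1) * d)) ≤ X * (L ^ (C + (D + 1) * d) * L) := by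
      have : 0 ≤ (X : ℝ) * L ^ (C + (D + 1) * d) := by positivity
      nlinarith
    linarith
  have h14 : ((g.eval (t : ℤ)).natAbs : ℝ) ≤ X * L ^ (C + (D + 1) * d + 2) := by
    refine (hG t).trans ?_
    have b1 := mul_le_mul_of_nonneg_left (h4.trans (mul_le_mul_of_nonneg_left h13 (by positivity))) hG0
    refine b1.trans ?_
    have b2 : G * (2 ^ d * (X * L ^ (C + (D + 1) * d + 1))) = G * 2 ^ d * (X * L ^ (C + (D + 1) * d + 1)) := by ring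
    rw [b2]
    have b3 := mul_le_mul_of_nonneg_right hLG (show 0 ≤ (X : ℝ) * L ^ (C + (D + 1) * d + 1) by positivity)
    refine b3.trans (le_of_eq ?_)
    ring
  have h15 : (X : ℝ) * L ^ (C + (D + 1) * d + 2) ≤ X * (X : ℝ) ^ (1 / 2 : ℝ) := mul_le_mul_of_nonneg_left h2 (by linarith)
  have h16 : (X : ℝ) ^ (1 / 2 : ℝ) * (X : ℝ) ^ (1 / 2 : ℝ) = X := by
    rw [← Real.rpow_add (by linarith)]; norm_num
  have h17 : 0 ≤ (X : ℝ) ^ (1 / 2 : ℝ) := by positivity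
  have h18 : (2 : ℝ) ≤ (X : ℝ) ^ (1 / 2 : ℝ) := by
    by_contra h
    push Not at h
    have h100 : (100 : ℝ) ≤ Nat.sqrt X := by exact_mod_cast hX100
    nlinarith
  rw [mem_Icc] at hc
  have h19 : ((g.eval (t : ℤ) + c).natAbs : ℝ) ≤ ((g.eval (t : ℤ)).natAbs : ℝ) + X := by
    have e1 : (g.eval (t : ℤ) + c).natAbs ≤ (g.eval (t : ℤ)).natAbs + X := by omega
    exact_mod_cast e1
  have h20 : (X : ℝ) * (X : ℝ) ^ (1 / 2 : ℝ) + X ≤ (X : ℝ) ^ 2 := by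
    have c1 : (X : ℝ) ^ 2 = X * ((X : ℝ) ^ (1 / 2 : ℝ) * (X : ℝ) ^ (1 / 2 : ℝ)) := by rw [h16]; ring
    rw [c1]
    have c2 : (X : ℝ) ^ (1 / 2 : ℝ) + 1 ≤ (X : ℝ) ^ (1 / 2 : ℝ) * (X : ℝ) ^ (1 / 2 : ℝ) := by nlinarith
    have c3 := mul_le_mul_of_nonneg_left c2 (show (0 : ℝ) ≤ X by linarith)
    linarith
  linarith

/-- the error of the sieve is negligible -/
lemma err_ev (C0 K0 E : ℕ) (hK0 : 1 ≤ K0) : ∀ᶠ X : ℕ in atTop, ∀ z : ℕ, 3 ≤ z → (z : ℝ) ≤ Real.log X ^ E →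
    (Vz z)⁻¹ * (Vz z)⁻¹ * (((JJ z : ℝ) + 2) * ((z : ℝ) ^ (2 * (C0 * C0)) * (K0 * (z : ℝ) ^ (2 * (C0 * C0)))) + 6) ≤ X / 4 := by
  filter_upwards [evt_log_ge (2 * K0 + 10000), evt_log_pow (E * (4 * (C0 * C0) + 3) + 1) (1 / 2) (by norm_num)] with X h1 h2
  intro z hz hzE
  have hL1 : 10000 ≤ Real.log X := by
    have : (0 : ℝ) ≤ 2 * K0 := by positivity
    linarith
  obtain ⟨hX1, -, -, -, -, hX100, hXs⟩ := S_facts X hL1
  have hX0 : (1 : ℝ) ≤ X := by exact_mod_cast hX1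
  set L := Real.log X with hL
  have hLone : 1 ≤ L := by linarith
  have hz0 : (3 : ℝ) ≤ z := by exact_mod_cast hz
  have hK : (1 : ℝ) ≤ K0 := by exact_mod_cast hK0
  have hV : (Vz z)⁻¹ ≤ z := by
    have a1 := Vz_ge z (by omega)
    have a2 := Vz_pos z
    rw [inv_le_comm₀ a2 (by linarith)]
    rwa [one_div] at a1
  have hV0 : 0 ≤ (Vz z)⁻¹ := inv_nonneg.2 (Vz_pos z).le
  have hVV : (Vz z)⁻¹ * (Vz z)⁻¹ ≤ (z : ℝ) * z := mul_le_mul hV hV hV0 (by linarith)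
  have hJ : (JJ z : ℝ) + 2 ≤ 2 * z := by exact_mod_cast JJ_small z hz
  set N := 2 * (C0 * C0) with hN
  have hzN : 1 ≤ (z : ℝ) ^ N := one_le_pow₀ (by linarith)
  have e1 : ((JJ z : ℝ) + 2) * ((z : ℝ) ^ N * (K0 * (z : ℝ) ^ N)) + 6 ≤ (2 * K0 + 2) * (z * ((z : ℝ) ^ N * (z : ℝ) ^ N)) := by
    have b1 : ((JJ z : ℝ) + 2) * ((z : ℝ) ^ N * (K0 * (z : ℝ) ^ N)) ≤ 2 * z * ((z : ℝ) ^ N * (K0 * (z : ℝ) ^ N)) :=
      mul_le_mul_of_nonneg_right hJ (by positivity)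
    have b2 : (6 : ℝ) ≤ 2 * (z * ((z : ℝ) ^ N * (z : ℝ) ^ N)) := by
      have b3 : (1 : ℝ) ≤ (z : ℝ) ^ N * (z : ℝ) ^ N := one_le_mul_of_one_le_of_one_le hzN hzN
      nlinarith
    have b4 : 2 * (z : ℝ) * ((z : ℝ) ^ N * (K0 * (z : ℝ) ^ N)) = 2 * K0 * (z * ((z : ℝ) ^ N * (z : ℝ) ^ N)) := by ring
    rw [b4] at b1
    linarith
  have e2 : (Vz z)⁻¹ * (Vz z)⁻¹ * (((JJ z : ℝ) + 2) * ((z : ℝ) ^ N * (K0 * (z : ℝ) ^ N)) + 6) ≤
      ((z : ℝ) * z) * ((2 * K0 + 2) * (z * ((z : ℝ) ^ N * (z : ℝ) ^ N))) :=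
    mul_le_mul hVV e1 (by positivity) (by positivity)
  have e3 : ((z : ℝ) * z) * ((2 * K0 + 2) * (z * ((z : ℝ) ^ N * (z : ℝ) ^ N))) = (2 * K0 + 2) * (z : ℝ) ^ (4 * (C0 * C0) + 3) := by
    have : 4 * (C0 * C0) + 3 = N + N + 3 := by omega
    rw [this, pow_add, pow_add]
    ring
  have e4 : (z : ℝ) ^ (4 * (C0 * C0) + 3) ≤ L ^ (E * (4 * (C0 * C0) + 3)) := by
    rw [pow_mul]
    exact pow_le_pow_left₀ (by linarith) hzE _
  have e5 : (2 * (K0 : ℝ) + 2) * (z : ℝ) ^ (4 * (C0 * C0) + 3) ≤ L ^ (E * (4 * (C0 * C0) + 3) + 1) := by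
    rw [pow_succ' L (E * (4 * (C0 * C0) + 3))]
    exact mul_le_mul (by linarith) e4 (by positivity) (by linarith)
  have h16 : (X : ℝ) ^ (1 / 2 : ℝ) * (X : ℝ) ^ (1 / 2 : ℝ) = X := by
    rw [← Real.rpow_add (by linarith)]; norm_num
  have h17 : 0 ≤ (X : ℝ) ^ (1 / 2 : ℝ) := by positivity
  have h18 : (4 : ℝ) ≤ (X : ℝ) ^ (1 / 2 : ℝ) := by
    by_contra h
    push Not at h
    have h100 : (100 : ℝ) ≤ Nat.sqrt X := by exact_mod_cast hX100
    nlinarith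
  have h19 : (X : ℝ) ^ (1 / 2 : ℝ) ≤ X / 4 := by nlinarith
  linarith

/-- the main lower bound -/
lemma main_low (g : ℤ[X]) (C0 K0 : ℕ) (hnn : ∀ z : ℕ, 2 ≤ z → ∀ (X : ℕ) (A B : ℤ),
    (1 / 2 : ℝ) * ((2 * X + 1) * Pi0 (A - B) z z z) -
      ((JJ z : ℝ) + 2) * ((z : ℝ) ^ (2 * (C0 * C0)) * (K0 * (z : ℝ) ^ (2 * (C0 * C0)))) ≤ (NN A B X z z : ℝ))
    {X z n n' : ℕ} (hz : 2 ≤ z) (hL : 1 ≤ Real.log X)
    (hn : ∀ c ∈ Icc (-(X : ℤ)) X, ((g.eval (n : ℤ) + c).natAbs : ℝ) ≤ (X : ℝ) ^ 2)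
    (hn' : ∀ c ∈ Icc (-(X : ℤ)) X, ((g.eval (n' : ℤ) + c).natAbs : ℝ) ≤ (X : ℝ) ^ 2)
    (herr : (Vz z)⁻¹ * (Vz z)⁻¹ * (((JJ z : ℝ) + 2) * ((z : ℝ) ^ (2 * (C0 * C0)) * (K0 * (z : ℝ) ^ (2 * (C0 * C0)))) + 6) ≤ X / 4)
    (h2 : (2 : ℤ) ∣ g.eval (n' : ℤ) - g.eval (n : ℤ)) :
    3 * X / (16 * Real.log X ^ 2) ≤ mc g (vv z) (vv z) X n n' := by
  refine le_trans ?_ (mcvv g hL hn hn')
  have hVp := Vz_pos z
  have hd : (2 : ℤ) ∣ g.eval (n : ℤ) - g.eval (n' : ℤ) := by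
    have := dvd_neg.2 h2
    rwa [neg_sub] at this
  have h3 := pair_low (g.eval (n : ℤ) - g.eval (n' : ℤ)) z hz hd
  have h4 := hnn z hz X (g.eval (n : ℤ)) (g.eval (n' : ℤ))
  set Er := ((JJ z : ℝ) + 2) * ((z : ℝ) ^ (2 * (C0 * C0)) * (K0 * (z : ℝ) ^ (2 * (C0 * C0)))) with hEr
  set W := (Vz z)⁻¹ * (Vz z)⁻¹ with hW
  have hW0 : 0 ≤ W := by rw [hW]; positivity
  have hW1 : 1 ≤ W * Pi0 (g.eval (n : ℤ) - g.eval (n' : ℤ)) z z z := by
    have a1 := mul_le_mul_of_nonneg_left h3 hW0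
    have a2 : W * Vz z ^ 2 = 1 := by
      rw [hW]; field_simp
    linarith
  have h5 := mul_le_mul_of_nonneg_left h4 hW0
  have h6 : W * (1 / 2 * ((2 * (X : ℝ) + 1) * Pi0 (g.eval (n : ℤ) - g.eval (n' : ℤ)) z z z) - Er) =
      1 / 2 * (2 * (X : ℝ) + 1) * (W * Pi0 (g.eval (n : ℤ) - g.eval (n' : ℤ)) z z z) - W * Er := by ring
  rw [h6] at h5
  have h7 : 1 / 2 * (2 * (X : ℝ) + 1) * 1 ≤ 1 / 2 * (2 * (X : ℝ) + 1) * (W * Pi0 (g.eval (n : ℤ) - g.eval (n' : ℤ)) z z z) :=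
    mul_le_mul_of_nonneg_left hW1 (by positivity)
  have h8 : 3 * (X : ℝ) / 4 ≤ W * (NN (g.eval (n : ℤ)) (g.eval (n' : ℤ)) X z z : ℝ) - 6 * W := by
    have : W * (Er + 6) = W * Er + 6 * W := by ring
    rw [this] at herr
    linarith
  have h9 := mul_le_mul_of_nonneg_left h8 (show 0 ≤ 1 / (4 * Real.log X ^ 2) by positivity)
  refine le_trans (le_of_eq ?_) h9
  have hL0 : Real.log X ≠ 0 := by linarith
  field_simp
  ring

/-- **R1** -/
theorem r1 (g : ℤ[X]) (_hg : Gd g) (h : Run7.h285.V.S_GCM g) : S_R1 g := by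
  classical
  intro U C D
  obtain ⟨C0, K0, -, hK0, hnn⟩ := nn_low
  obtain ⟨E1, hE1⟩ := h (U + 4) C D
  set E := max E1 1 with hE
  obtain ⟨B, X1, hB⟩ := hE1 E (le_max_left _ _)
  obtain ⟨X2, hX2⟩ := Pool.Agent.TH892.SW.sq_ff E
  obtain ⟨X3, hX3⟩ := eventually_atTop.1 ((evt_log_ge 10000).and ((err_ev C0 K0 E hK0).and (val_ev g C D)))
  refine ⟨B, max (max X1 X2) X3, ?_⟩
  intro X hX m₀ M i hi1 hiD hM hm
  obtain ⟨hL, herr, hval⟩ := hX3 X ((le_max_right _ _).trans hX)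
  have hsf := hX2 X ((le_max_right _ _).trans ((le_max_left _ _).trans hX))
  have hGC := hB X ((le_max_left _ _).trans ((le_max_left _ _).trans hX)) m₀ M
  obtain ⟨hX1, -, -, -, -, hX100, hXs⟩ := S_facts X hL
  have hX0 : (1 : ℝ) ≤ X := by exact_mod_cast hX1
  set L := Real.log X with hLdef
  have hL1 : 1 ≤ L := by linarith
  have hL0 : 0 < L := by linarith
  set z := ⌊L ^ E⌋₊ with hz
  have hLE : L ≤ L ^ E := by
    calc L = L ^ 1 := (pow_one _).symm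
      _ ≤ L ^ E := pow_le_pow_right₀ hL1 (le_max_right _ _)
  have hz3 : 3 ≤ z := by
    rw [hz]; apply Nat.le_floor; push_cast; linarith
  have hzle : (z : ℝ) ≤ L ^ E := Nat.floor_le (by positivity)
  have hff := (hsf z (by omega) hzle).1
  have hgg : ∀ y, |gg z y| ≤ 6 * L := by
    intro y
    unfold gg
    have h1 := abs_add_le (ff z (1 * y)) (ff z (-1 * y))
    have h2 := hff (1 * y)
    have h3 := hff (-1 * y)
    linarith
  have huu1 : ∀ y, |uu y| ≤ 1 := by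
    intro y
    unfold uu
    split_ifs
    · rw [abs_one]
    · rw [abs_zero]; norm_num
  have hvv : ∀ y, |vv z y| ≤ 7 * L := by
    intro y
    have e : vv z y = uu y - gg z y := by linarith [uu_gg z y]
    rw [e]
    have h1 := abs_sub (uu y) (gg z y)
    have h2 := hgg y
    have h3 := huu1 y
    linarith
  have h7 : 0 < 7 * L := by linarith
  have hD0 : ((0 : ℕ) : ℝ) ≤ L ^ D := by
    rw [Nat.cast_zero]; positivity
  -- the two correlations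
  have hc1 := hGC 0 i (by omega) hD0 hiD hM hm uu huu1
  have hc2 := hGC i 0 (by omega) hiD hD0 hM hm (fun y => vv z y * (7 * L)⁻¹) (fun y => by
        rw [abs_mul, abs_of_pos (inv_pos.2 h7)]
        have := hvv y
        rw [← div_eq_mul_inv, div_le_one h7]
        exact this)
  have hc3 : ∑ m ∈ Ioc m₀ (m₀ + M), |mc g (gg z) (vv z) X m (m + i)| =
        7 * L * ∑ m ∈ Ioc m₀ (m₀ + M), |mc g (fun y => vv z y * (7 * L)⁻¹) (gg z) X (m + i) (m + 0)| := by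
    rw [mul_sum]
    refine sum_congr rfl fun m _ => ?_
    rw [← mc_scale, abs_mul, abs_of_pos (inv_pos.2 h7), mc_symm, add_zero]
    field_simp
  simp only [add_zero] at hc1
  set R := (X : ℝ) * M / L ^ (U + 4) with hR
  have hR0 : 0 ≤ R := by rw [hR]; positivity
  have hc4 : ∑ m ∈ Ioc m₀ (m₀ + M), (|mc g uu (gg z) X m (m + i)| + |mc g (gg z) (vv z) X m (m + i)|) ≤ 8 * L * R := by
    rw [sum_add_distrib, hc3]
    have a1 := mul_le_mul_of_nonneg_left hc2 h7.le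
    have a2 : R ≤ L * R := by nlinarith
    nlinarith
  set S := (Ioc m₀ (m₀ + M)).filter fun m : ℕ => (2 : ℤ) ∣ g.eval ((m + i : ℕ) : ℤ) - g.eval (m : ℤ) ∧
    (c2 g X m (m + i) : ℝ) < X / (8 * L ^ 2) with hS
  have hbad : ∀ m ∈ S, (X : ℝ) / (16 * L ^ 2) ≤ |mc g uu (gg z) X m (m + i)| + |mc g (gg z) (vv z) X m (m + i)| := by
    intro m hmS
    rw [hS, mem_filter, mem_Ioc] at hmS
    obtain ⟨⟨hm1, hm2⟩, hm3, hm4⟩ := hmS
    have hmr : (m : ℝ) ≤ m₀ + M := by exact_mod_cast hm2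
    have hLD : 0 ≤ L ^ D := by positivity
    have v1 := hval m₀ M hm m (by linarith)
    have v2 := hval m₀ M hm (m + i) (by push_cast; linarith)
    have hlow := main_low g C0 K0 hnn (X := X) (z := z) (n := m) (n' := m + i) (by omega) hL1 v1 v2
      (herr z hz3 hzle) hm3
    rw [c2_eq, c2_split g z] at hm4
    have a1 := neg_abs_le (mc g uu (gg z) X m (m + i))
    have a2 := neg_abs_le (mc g (gg z) (vv z) X m (m + i))
    have a3 : 3 * (X : ℝ) / (16 * L ^ 2) - X / (8 * L ^ 2) = X / (16 * L ^ 2) := by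
      field_simp
      ring
    rw [← hLdef] at hlow
    linarith
  have hcount : (#S : ℝ) * (X / (16 * L ^ 2)) ≤ 8 * L * R := by
    have a1 : (#S : ℝ) * (X / (16 * L ^ 2)) ≤
        ∑ m ∈ S, (|mc g uu (gg z) X m (m + i)| + |mc g (gg z) (vv z) X m (m + i)|) := by
      rw [← nsmul_eq_mul, ← sum_const]
      exact sum_le_sum hbad
    refine a1.trans (le_trans ?_ hc4)
    apply sum_le_sum_of_subset_of_nonneg (filter_subset _ _)
    intro m _ _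
    positivity
  -- conclusion
  have hXp : (0 : ℝ) < X := by linarith
  have a1 : (#S : ℝ) ≤ 8 * L * R * (16 * L ^ 2) / X := by
    rw [le_div_iff₀ hXp]
    have b1 : (#S : ℝ) * X = (#S : ℝ) * (X / (16 * L ^ 2)) * (16 * L ^ 2) := by field_simp
    rw [b1]
    exact mul_le_mul_of_nonneg_right hcount (by positivity)
  have a2 : 8 * L * R * (16 * L ^ 2) / X = 128 / L * (M / L ^ U) := by
    rw [hR, pow_add]
    field_simp
    ring
  have a3 : (128 : ℝ) / L ≤ 1 := by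
    rw [div_le_one hL0]; linarith
  have a4 : 0 ≤ (M : ℝ) / L ^ U := by positivity
  calc (#S : ℝ) ≤ 128 / L * (M / L ^ U) := by rw [← a2]; exact a1
    _ ≤ 1 * (M / L ^ U) := mul_le_mul_of_nonneg_right a3 a4
    _ = M / L ^ U := one_mul _

end Run7.h837.R
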